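import Pool.Agent.WanRH.FF

/-!
# Restriction of places, Galois action on places
-/

namespace Pool.Agent.WanRH

open scoped Pointwise

universe u v w w'

section FieldGen

variable {k : Type u} {F : Type v} [Field k] [Field F] [Algebra k F] [IsFunctionField k F]

lemma Place.mem_fil_one_iff (x : Place k F) (a : F) : a ∈ x.fil 1 ↔ a = 0 ∨ a⁻¹ ∉ x.ring := by
  by_cases ha : a = 0
  · simp [ha]
  · rw [x.mem_fil_of_ne_zero ha, x.mem_ring_iff, x.ord_inv]
    simp only [ha, false_or, inv_eq_zero]
    omega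

lemma Place.unit_of_notMem (x : Place k F) {a : F} (ha : a ∈ x.ring) (ha' : a ∉ x.fil 1) :
    a ≠ 0 ∧ x.ord a = 0 := by
  have h0 : a ≠ 0 := by
    rintro rfl
    exact ha' (Submodule.zero_mem _)
  refine ⟨h0, ?_⟩
  rw [x.mem_fil_of_ne_zero h0] at ha'
  have := (x.mem_ring_iff.mp ha).resolve_left h0
  omega

lemma Place.pow_mem_fil_one (x : Place k F) {a : F} (ha : a ∈ x.fil 1) {n : ℕ} (hn : n ≠ 0) :
    a ^ n ∈ x.fil 1 := by
  obtain ⟨m, rfl⟩ := Nat.exists_eq_succ_of_ne_zero hn
  have h1 : a ^ m ∈ x.fil 0 :=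
    x.mem_ring_iff_fil.mp (pow_mem (x.mem_ring_iff_fil.mpr (x.fil_anti (by norm_num) ha)) m)
  have := x.mul_mem_fil h1 ha
  rw [zero_add] at this
  rwa [Nat.succ_eq_add_one, pow_succ]

/-- Transport of `ord` along an isomorphism of fields mapping valuation ring to valuation ring. -/
lemma Place.ord_of_ringEquiv {k' : Type*} {F' : Type*} [Field k'] [Field F'] [Algebra k' F']
    [IsFunctionField k' F'] (x : Place k F) (x' : Place k' F') (e : F ≃+* F')
    (h : ∀ a, e a ∈ x'.ring ↔ a ∈ x.ring) (a : F) : x'.ord (e a) = x.ord a := by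
  by_cases ha : a = 0
  · simp [ha]
  -- the image of a uniformizer is a uniformizer
  have hsgn : ∀ b : F, b ≠ 0 → (0 ≤ x'.ord (e b) ↔ 0 ≤ x.ord b) := by
    intro b hb
    have := h b
    rw [x'.mem_ring_iff, x.mem_ring_iff] at this
    simpa [hb] using this
  have hzero : ∀ b : F, b ≠ 0 → x.ord b = 0 → x'.ord (e b) = 0 := by
    intro b hb h0
    have h1 := (hsgn b hb).mpr h0.ge
    have h2 := (hsgn b⁻¹ (inv_ne_zero hb)).mpr (by rw [x.ord_inv, h0]; simp)
    rw [map_inv₀, x'.ord_inv] at h2
    omega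
  have hu0 : e x.unif ≠ 0 := by simpa using x.unif_ne_zero
  have key : ∀ b : F, b ≠ 0 → x'.ord (e b) = x.ord b * x'.ord (e x.unif) := by
    intro b hb
    have h1 : x.ord (b * x.unif ^ (-x.ord b)) = 0 := by
      rw [x.ord_mul hb (zpow_ne_zero _ x.unif_ne_zero), x.ord_zpow x.unif_ne_zero, x.ord_unif]
      ring
    have h2 := hzero _ (mul_ne_zero hb (zpow_ne_zero _ x.unif_ne_zero)) h1
    rw [map_mul, map_zpow₀, x'.ord_mul (by simpa using hb) (zpow_ne_zero _ hu0),
      x'.ord_zpow hu0] at h2
    linarith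
  -- its order is one
  have hpos : 0 < x'.ord (e x.unif) := by
    have h1 := (hsgn x.unif x.unif_ne_zero).mpr (by simp)
    rcases h1.lt_or_eq with h2 | h2
    · exact h2
    · exfalso
      have h3 := (hsgn x.unif⁻¹ (inv_ne_zero x.unif_ne_zero)).mp (by
        rw [map_inv₀, x'.ord_inv, ← h2]; simp)
      rw [x.ord_inv, x.ord_unif] at h3
      omega
  have hone : x'.ord (e x.unif) = 1 := by
    obtain ⟨c, hc⟩ := e.surjective x'.unif
    have hc0 : c ≠ 0 := by
      rintro rfl
      rw [map_zero] at hc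
      exact x'.unif_ne_zero hc.symm
    have h1 := key c hc0
    rw [hc, x'.ord_unif] at h1
    exact Int.eq_one_of_mul_eq_one_left hpos.le h1.symm
  rw [key a ha, hone, mul_one]

end FieldGen

section

variable {k : Type u} {K : Type v} {L : Type w} [Field k]
  [Field K] [Algebra k K] [IsFunctionField k K]
  [Field L] [Algebra k L] [IsFunctionField k L]
  [Algebra K L] [IsScalarTower k K L] [FiniteDimensional K L]

namespace Place

set_option linter.unusedSectionVars false

lemma exists_algebraMap_notMem (y : Place k L) : ∃ a : K, algebraMap K L a ∉ y.ring := by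
  by_contra hcon
  push Not at hcon
  apply y.ne_top
  refine ValuationSubring.ext _ _ fun l => ⟨fun _ => ValuationSubring.mem_top l, fun _ => ?_⟩
  let : Algebra K y.ring := ((algebraMap K L).codRestrict y.ring.toSubring hcon).toAlgebra
  have : IsScalarTower K y.ring L := IsScalarTower.of_algebraMap_eq fun _ => rfl
  have hl : IsIntegral K l := Algebra.IsIntegral.isIntegral l
  have hl' : IsIntegral y.ring l := hl.tower_top
  obtain ⟨z, hz⟩ := IsIntegrallyClosed.isIntegral_iff.mp hl'
  rw [← hz]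
  exact z.2

variable (K) in
/-- Restriction of a place of `L` to `K`. -/
noncomputable def down (y : Place k L) : Place k K where
  ring := y.ring.comap (algebraMap K L)
  const_mem c := by
    rw [ValuationSubring.mem_comap, ← IsScalarTower.algebraMap_apply]
    exact y.const_mem c
  ne_top := by
    intro h
    obtain ⟨a, ha⟩ := exists_algebraMap_notMem (K := K) y
    apply ha
    have : a ∈ y.ring.comap (algebraMap K L) := by
      rw [h]; exact ValuationSubring.mem_top a
    exact this

lemma liesAbove_iff (y : Place k L) (x : Place k K) : y.LiesAbove x ↔ y.down K = x := by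
  unfold LiesAbove
  constructor
  · intro h
    exact Place.ext h
  · rintro rfl
    rfl

lemma algebraMap_mem_ring_iff (y : Place k L) (a : K) :
    algebraMap K L a ∈ y.ring ↔ a ∈ (y.down K).ring := Iff.rfl

lemma algebraMap_mem_fil_one_iff (y : Place k L) (a : K) :
    algebraMap K L a ∈ y.fil 1 ↔ a ∈ (y.down K).fil 1 := by
  rw [mem_fil_one_iff, mem_fil_one_iff, ← map_inv₀, algebraMap_mem_ring_iff]
  simp

variable (k K L) in
lemma down_surjective : Function.Surjective (Place.down K : Place k L → Place k K) := by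
  intro x
  obtain ⟨B, hB, hloc⟩ := IsLocalRing.exists_factor_valuationRing (R := x.ring)
    ((algebraMap K L).comp x.ring.subtype)
  have hB' : ∀ a ∈ x.ring, algebraMap K L a ∈ B := fun a ha => hB ⟨a, ha⟩
  have hpi : (algebraMap K L x.unif)⁻¹ ∉ B := by
    intro hmem
    have hmem1 : x.unif ∈ x.ring := x.mem_ring_iff.mpr (Or.inr (by simp))
    have hu : IsUnit ((((algebraMap K L).comp x.ring.subtype).codRestrict B.toSubring hB)
        ⟨x.unif, hmem1⟩) := by
      refine IsUnit.of_mul_eq_one (⟨(algebraMap K L x.unif)⁻¹, hmem⟩ : B.toSubring) ?_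
      apply Subtype.ext
      show algebraMap K L x.unif * (algebraMap K L x.unif)⁻¹ = 1
      rw [mul_inv_cancel₀]
      simpa using x.unif_ne_zero
    have hu' := hloc.map_nonunit _ hu
    have h1 := (x.ring.valuation_eq_one_iff _).mp hu'
    exact absurd h1 (x.val_unif_lt_one).ne
  let y : Place k L := ⟨B, fun c => by
      rw [IsScalarTower.algebraMap_apply k K L]
      exact hB' _ (x.const_mem c), by
      rintro rfl
      exact hpi (ValuationSubring.mem_top _)⟩
  refine ⟨y, (Place.eq_of_ring_le (x := x) (y := y.down K) ?_).symm⟩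
  intro a ha
  exact hB' a ha

lemma finite_fibre (x : Place k K) : {y : Place k L | y.down K = x}.Finite := by
  refine (finite_ord_ne_zero (k := k) (algebraMap K L x.unif)).subset ?_
  rintro y rfl
  have h1 : (y.down K).unif ∈ (y.down K).fil 1 := by
    rw [mem_fil_of_ne_zero _ (unif_ne_zero _), ord_unif]
  rw [← algebraMap_mem_fil_one_iff, mem_fil_of_ne_zero _ (by simpa using unif_ne_zero _)] at h1
  simp only [Set.mem_ofPred_eq]
  omega

omit [IsFunctionField k K] [FiniteDimensional K L] [IsFunctionField k L] in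
lemma mem_smul_ring_iff (σ : L ≃ₐ[K] L) (R : ValuationSubring L) (a : L) :
    a ∈ σ • R ↔ σ.symm a ∈ R := by
  rw [ValuationSubring.mem_pointwise_smul_iff_inv_smul_mem]
  rfl

/-- Action of the Galois group on places. -/
noncomputable def act (σ : L ≃ₐ[K] L) (y : Place k L) : Place k L where
  ring := σ • y.ring
  const_mem c := by
    rw [mem_smul_ring_iff, IsScalarTower.algebraMap_apply k K L, AlgEquiv.commutes,
      ← IsScalarTower.algebraMap_apply]
    exact y.const_mem c
  ne_top := by
    intro h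
    apply y.ne_top
    refine ValuationSubring.ext _ _ fun l => ⟨fun _ => ValuationSubring.mem_top l, fun _ => ?_⟩
    have h1 : σ l ∈ σ • y.ring := by rw [h]; exact ValuationSubring.mem_top _
    rwa [mem_smul_ring_iff, AlgEquiv.symm_apply_apply] at h1

lemma mem_act_ring (σ : L ≃ₐ[K] L) (y : Place k L) (a : L) :
    a ∈ (act σ y).ring ↔ σ.symm a ∈ y.ring := mem_smul_ring_iff σ y.ring a

lemma apply_mem_act_ring (σ : L ≃ₐ[K] L) (y : Place k L) (a : L) :
    σ a ∈ (act σ y).ring ↔ a ∈ y.ring := by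
  rw [mem_act_ring, AlgEquiv.symm_apply_apply]

lemma ord_act (σ : L ≃ₐ[K] L) (y : Place k L) (a : L) : (act σ y).ord (σ a) = y.ord a :=
  Place.ord_of_ringEquiv y (act σ y) σ.toRingEquiv (fun a => apply_mem_act_ring σ y a) a

lemma mem_fil_act (σ : L ≃ₐ[K] L) (y : Place k L) (a : L) (n : ℤ) :
    a ∈ (act σ y).fil n ↔ σ.symm a ∈ y.fil n := by
  rw [mem_fil, mem_fil]
  have h1 := ord_act σ y (σ.symm a)
  rw [AlgEquiv.apply_symm_apply] at h1
  rw [h1]
  simp

lemma apply_mem_fil_act (σ : L ≃ₐ[K] L) (y : Place k L) (a : L) (n : ℤ) :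
    σ a ∈ (act σ y).fil n ↔ a ∈ y.fil n := by
  rw [mem_fil_act, AlgEquiv.symm_apply_apply]

lemma act_one (y : Place k L) : act (1 : L ≃ₐ[K] L) y = y := by
  apply Place.ext
  ext a
  rw [mem_act_ring]
  rfl

lemma act_mul (σ τ : L ≃ₐ[K] L) (y : Place k L) : act (σ * τ) y = act σ (act τ y) := by
  apply Place.ext
  ext a
  rw [mem_act_ring, mem_act_ring, mem_act_ring]
  rfl

lemma down_act (σ : L ≃ₐ[K] L) (y : Place k L) : (act σ y).down K = y.down K := by
  apply Place.ext
  ext a
  rw [← algebraMap_mem_ring_iff, ← algebraMap_mem_ring_iff, mem_act_ring]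
  have : σ.symm (algebraMap K L a) = algebraMap K L a := AlgEquiv.commutes _ _
  rw [this]

/-- Isomorphism of valuation rings. -/
noncomputable def actRingEquiv (σ : L ≃ₐ[K] L) (y : Place k L) : y.ring ≃+* (act σ y).ring where
  toFun a := ⟨σ a, (apply_mem_act_ring σ y a).mpr a.2⟩
  invFun a := ⟨σ.symm a, (mem_act_ring σ y a).mp a.2⟩
  left_inv _ := Subtype.ext (AlgEquiv.symm_apply_apply _ _)
  right_inv _ := Subtype.ext (AlgEquiv.apply_symm_apply _ _)
  map_mul' _ _ := Subtype.ext (map_mul σ _ _)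
  map_add' _ _ := Subtype.ext (map_add σ _ _)

lemma degree_act [Finite k] (σ : L ≃ₐ[K] L) (y : Place k L) : (act σ y).degree = y.degree := by
  have h1 := (act σ y).card_residueField
  have h2 := y.card_residueField
  have h3 : Nat.card y.ResidueField = Nat.card (act σ y).ResidueField :=
    Nat.card_congr (IsLocalRing.ResidueField.mapEquiv (actRingEquiv σ y)).toEquiv
  rw [h1, h2] at h3
  exact (Nat.pow_right_injective (Finite.one_lt_card) h3).symm

/-- The Galois group acts transitively on the places above a given place. -/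
theorem exists_act_eq [IsGalois K L] {y y' : Place k L} (h : y.down K = y'.down K) :
    ∃ σ : L ≃ₐ[K] L, act σ y = y' := by
  classical
  by_contra hcon
  push Not at hcon
  let G := L ≃ₐ[K] L
  let S : Finset (Place k L) := (Finset.univ : Finset G).image fun σ => act σ y
  let S' : Finset (Place k L) := (Finset.univ : Finset G).image fun σ => act σ y'
  have hdisj : ∀ z ∈ S', z ∉ S := by
    intro z hz hz'
    obtain ⟨σ, -, rfl⟩ := Finset.mem_image.mp hz
    obtain ⟨τ, -, hτ⟩ := Finset.mem_image.mp hz'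
    apply hcon (σ⁻¹ * τ)
    rw [act_mul, hτ, ← act_mul, inv_mul_cancel, act_one]
  obtain ⟨a, ha⟩ := weak_approx (S ∪ S') (fun z => if z ∈ S then 1 else 0) 1
  have ha1 : ∀ σ : G, a - 1 ∈ (act σ y).fil 1 := by
    intro σ
    have hm : act σ y ∈ S := Finset.mem_image_of_mem _ (Finset.mem_univ _)
    have := ha (act σ y) (Finset.mem_union_left _ hm)
    simpa [hm] using this
  have ha0 : ∀ σ : G, a ∈ (act σ y').fil 1 := by
    intro σ
    have hm : act σ y' ∈ S' := Finset.mem_image_of_mem _ (Finset.mem_univ _)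
    have := ha (act σ y') (Finset.mem_union_right _ hm)
    simpa [hdisj _ hm] using this
  have hb1 : ∀ σ : G, σ a - 1 ∈ y.fil 1 := by
    intro σ
    have h1 := (mem_fil_act σ⁻¹ y (a - 1) 1).mp (ha1 σ⁻¹)
    have h2 : (σ⁻¹ : G).symm (a - 1) = σ a - 1 := by
      rw [map_sub, map_one]; rfl
    rwa [h2] at h1
  have hb0 : ∀ σ : G, σ a ∈ y'.fil 1 := by
    intro σ
    exact (mem_fil_act σ⁻¹ y' a 1).mp (ha0 σ⁻¹)
  have hnorm : algebraMap K L (Algebra.norm K a) = ∏ σ : G, σ a :=
    Algebra.norm_eq_prod_automorphisms K a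
  have h1 : ∏ σ : G, σ a ∈ y'.fil 1 := by
    rw [← Finset.mul_prod_erase Finset.univ _ (Finset.mem_univ (1 : G))]
    have h2 : ∏ σ ∈ Finset.univ.erase (1 : G), σ a ∈ y'.fil 0 := by
      rw [← mem_ring_iff_fil]
      exact prod_mem fun σ _ => y'.mem_ring_iff_fil.mpr (y'.fil_anti (by norm_num) (hb0 σ))
    have := y'.mul_mem_fil (hb0 1) h2
    rwa [add_zero] at this
  have h2 : ∏ σ : G, σ a - 1 ∈ y.fil 1 := by
    have hgen : ∀ s : Finset G, ∏ σ ∈ s, σ a - 1 ∈ y.fil 1 := by
      intro s
      induction s using Finset.induction_on with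
      | empty => simp
      | insert σ s hσ ih =>
        rw [Finset.prod_insert hσ]
        have h3 : σ a * ∏ τ ∈ s, τ a - 1 =
            (σ a - 1) * (∏ τ ∈ s, τ a - 1) + (σ a - 1) + (∏ τ ∈ s, τ a - 1) := by ring
        rw [h3]
        refine (y.fil 1).add_mem ((y.fil 1).add_mem ?_ (hb1 σ)) ih
        exact y.fil_anti (by norm_num) (y.mul_mem_fil (hb1 σ) ih)
    exact hgen _
  rw [← hnorm] at h1 h2
  rw [algebraMap_mem_fil_one_iff, ← h, ← algebraMap_mem_fil_one_iff] at h1
  have h3 := (y.fil 1).sub_mem h1 h2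
  rw [sub_sub_cancel, y.mem_fil_of_ne_zero one_ne_zero, y.ord_one] at h3
  omega

end Place

end

end Pool.Agent.WanRH
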