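import Pool.Agent.WanRH.Gal.Down

/-!
# Inertia, Frobenius elements
-/

namespace Pool.Agent.WanRH

open scoped Pointwise

universe u v w w'

/-- A ring endomorphism of a finite field which fixes a subfield is a power of the Frobenius. -/
lemma exists_eq_pow_card {κ₀ κ : Type*} [Field κ₀] [Field κ] [Finite κ] (i : κ₀ →+* κ)
    (e : κ →+* κ) (he : ∀ c, e (i c) = i c) :
    ∃ n : ℕ, ∀ z, e z = z ^ (Nat.card κ₀ ^ n) := by
  let : Algebra κ₀ κ := i.toAlgebra
  have hfin : Finite κ₀ := Finite.of_injective i i.injective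
  have : Fintype κ₀ := Fintype.ofFinite κ₀
  let e' : κ →ₐ[κ₀] κ := { e with commutes' := he }
  obtain ⟨n, hn⟩ := (FiniteField.bijective_frobeniusAlgHom_pow κ₀ κ).2 e'
  refine ⟨n, fun z => ?_⟩
  have h1 := DFunLike.congr_fun hn z
  simp only at h1
  rw [AlgHom.coe_pow, FiniteField.coe_frobeniusAlgHom, pow_iterate] at h1
  rw [Nat.card_eq_fintype_card]
  exact h1.symm

lemma frob_ringHom {κ₀ κ : Type*} [Field κ₀] [Field κ] [Finite κ] (i : κ₀ →+* κ) :
    ∃ φ : κ →+* κ, ∀ z, φ z = z ^ (Nat.card κ₀) := by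
  let : Algebra κ₀ κ := i.toAlgebra
  have hfin : Finite κ₀ := Finite.of_injective i i.injective
  have : Fintype κ₀ := Fintype.ofFinite κ₀
  refine ⟨(FiniteField.frobeniusAlgHom κ₀ κ).toRingHom, fun z => ?_⟩
  rw [Nat.card_eq_fintype_card]
  rfl

/-- The order of the Frobenius. -/
lemma pow_card_pow_eq_self_iff {κ₀ κ : Type*} [Field κ₀] [Field κ] [Finite κ] (i : κ₀ →+* κ) :
    ∃ f : ℕ, 0 < f ∧ Nat.card κ = Nat.card κ₀ ^ f ∧
      ∀ m : ℕ, (∀ z : κ, z ^ (Nat.card κ₀ ^ m) = z) ↔ f ∣ m := by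
  let : Algebra κ₀ κ := i.toAlgebra
  have hfin : Finite κ₀ := Finite.of_injective i i.injective
  have : Fintype κ₀ := Fintype.ofFinite κ₀
  refine ⟨Module.finrank κ₀ κ, Module.finrank_pos, Module.natCard_eq_pow_finrank, fun m => ?_⟩
  rw [← FiniteField.orderOf_frobeniusAlgHom κ₀ κ, orderOf_dvd_iff_pow_eq_one, Nat.card_eq_fintype_card]
  constructor
  · intro h
    refine DFunLike.ext _ _ fun z => ?_
    rw [AlgHom.coe_pow, FiniteField.coe_frobeniusAlgHom, pow_iterate, AlgHom.one_apply]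
    exact h z
  · intro h z
    have h1 := DFunLike.congr_fun h z
    rwa [AlgHom.coe_pow, FiniteField.coe_frobeniusAlgHom, pow_iterate, AlgHom.one_apply] at h1

section

variable {k : Type u} {K : Type v} {L : Type w} [Field k] 
  [Field K] [Algebra k K] [IsFunctionField k K]
  [Field L] [Algebra k L] [IsFunctionField k L]
  [Algebra K L] [IsScalarTower k K L] [FiniteDimensional K L]

namespace Place

set_option linter.unusedSectionVars false

section Res

variable (K) in
/-- The inclusion of valuation rings. -/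
noncomputable def inclRing (y : Place k L) : (y.down K).ring →+* y.ring :=
  ((algebraMap K L).comp (y.down K).ring.subtype).codRestrict y.ring.toSubring fun a => a.2

@[simp] lemma coe_inclRing (y : Place k L) (a : (y.down K).ring) :
    ((inclRing K y a : y.ring) : L) = algebraMap K L a := rfl

lemma isUnit_iff_notMem_fil (y : Place k L) (a : y.ring) : IsUnit a ↔ (a : L) ∉ y.fil 1 := by
  rw [← y.residue_eq_zero_iff, IsLocalRing.residue_eq_zero_iff, IsLocalRing.mem_maximalIdeal,
    mem_nonunits_iff, not_not]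

instance isLocalHom_inclRing (y : Place k L) : IsLocalHom (inclRing K y) where
  map_nonunit a ha := by
    rw [isUnit_iff_notMem_fil] at ha ⊢
    rw [coe_inclRing, algebraMap_mem_fil_one_iff] at ha
    exact ha

variable (K) in
/-- The inclusion of residue fields. -/
noncomputable def inclRes (y : Place k L) : (y.down K).ResidueField →+* y.ResidueField :=
  IsLocalRing.ResidueField.map (inclRing K y)

lemma inclRes_residue (y : Place k L) (a : (y.down K).ring) :
    inclRes K y (IsLocalRing.residue _ a) = IsLocalRing.residue _ (inclRing K y a) := rfl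

lemma residue_eq_iff (y : Place k L) (a b : y.ring) :
    IsLocalRing.residue _ a = IsLocalRing.residue _ b ↔ (a : L) - b ∈ y.fil 1 := by
  rw [← sub_eq_zero, ← map_sub, y.residue_eq_zero_iff]
  rfl

lemma apply_mem_ring_iff {σ : L ≃ₐ[K] L} {y : Place k L} (h : act σ y = y) (a : L) :
    σ a ∈ y.ring ↔ a ∈ y.ring := by
  have := apply_mem_act_ring σ y a
  rwa [h] at this

lemma apply_mem_fil_iff {σ : L ≃ₐ[K] L} {y : Place k L} (h : act σ y = y) (a : L) (n : ℤ) :
    σ a ∈ y.fil n ↔ a ∈ y.fil n := by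
  have := apply_mem_fil_act σ y a n
  rwa [h] at this

lemma symm_apply_mem_ring_iff {σ : L ≃ₐ[K] L} {y : Place k L} (h : act σ y = y) (a : L) :
    σ.symm a ∈ y.ring ↔ a ∈ y.ring := by
  rw [← apply_mem_ring_iff h, AlgEquiv.apply_symm_apply]

/-- Action of the decomposition group on the valuation ring. -/
noncomputable def decEquiv (σ : L ≃ₐ[K] L) (y : Place k L) (h : act σ y = y) :
    y.ring ≃+* y.ring where
  toFun a := ⟨σ a, (apply_mem_ring_iff h _).mpr a.2⟩
  invFun a := ⟨σ.symm a, (symm_apply_mem_ring_iff h _).mpr a.2⟩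
  left_inv _ := Subtype.ext (AlgEquiv.symm_apply_apply _ _)
  right_inv _ := Subtype.ext (AlgEquiv.apply_symm_apply _ _)
  map_mul' _ _ := Subtype.ext (map_mul σ _ _)
  map_add' _ _ := Subtype.ext (map_add σ _ _)

@[simp] lemma coe_decEquiv (σ : L ≃ₐ[K] L) (y : Place k L) (h : act σ y = y) (a : y.ring) :
    ((decEquiv σ y h a : y.ring) : L) = σ a := rfl

/-- Action of the decomposition group on the residue field. -/
noncomputable def resEquiv (σ : L ≃ₐ[K] L) (y : Place k L) (h : act σ y = y) :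
    y.ResidueField ≃+* y.ResidueField :=
  IsLocalRing.ResidueField.mapEquiv (decEquiv σ y h)

lemma resEquiv_residue (σ : L ≃ₐ[K] L) (y : Place k L) (h : act σ y = y) (a : y.ring) :
    resEquiv σ y h (IsLocalRing.residue _ a) = IsLocalRing.residue _ (decEquiv σ y h a) := rfl

lemma act_mul_eq {σ τ : L ≃ₐ[K] L} {y : Place k L} (h : act σ y = y) (h' : act τ y = y) :
    act (σ * τ) y = y := by
  rw [act_mul, h', h]

lemma act_inv_eq {σ : L ≃ₐ[K] L} {y : Place k L} (h : act σ y = y) : act σ⁻¹ y = y := by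
  conv_lhs => rw [← h]
  rw [← act_mul, inv_mul_cancel, act_one]

lemma act_pow_eq {σ : L ≃ₐ[K] L} {y : Place k L} (h : act σ y = y) (n : ℕ) :
    act (σ ^ n) y = y := by
  induction n with
  | zero => rw [pow_zero, act_one]
  | succ n ih => rw [pow_succ]; exact act_mul_eq ih h

lemma resEquiv_mul {σ τ : L ≃ₐ[K] L} {y : Place k L} (h : act σ y = y) (h' : act τ y = y)
    (z : y.ResidueField) :
    resEquiv (σ * τ) y (act_mul_eq h h') z = resEquiv σ y h (resEquiv τ y h' z) := by
  obtain ⟨a, rfl⟩ := IsLocalRing.residue_surjective z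
  rfl

lemma resEquiv_inclRes {σ : L ≃ₐ[K] L} {y : Place k L} (h : act σ y = y)
    (c : (y.down K).ResidueField) : resEquiv σ y h (inclRes K y c) = inclRes K y c := by
  obtain ⟨a, rfl⟩ := IsLocalRing.residue_surjective c
  rw [inclRes_residue, resEquiv_residue]
  congr 1
  apply Subtype.ext
  rw [coe_decEquiv, coe_inclRing, AlgEquiv.commutes]

end Res

/-- `σ` belongs to the inertia group of `y`. -/
def Inert (σ : L ≃ₐ[K] L) (y : Place k L) : Prop :=
  act σ y = y ∧ ∀ a ∈ y.ring, σ a - a ∈ y.fil 1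

lemma inert_iff (σ : L ≃ₐ[K] L) (y : Place k L) :
    Inert σ y ↔ ∃ h : act σ y = y, ∀ z, resEquiv σ y h z = z := by
  constructor
  · rintro ⟨h, h1⟩
    refine ⟨h, fun z => ?_⟩
    obtain ⟨a, rfl⟩ := IsLocalRing.residue_surjective z
    rw [resEquiv_residue, residue_eq_iff]
    exact h1 a a.2
  · rintro ⟨h, h1⟩
    refine ⟨h, fun a ha => ?_⟩
    have := h1 (IsLocalRing.residue _ ⟨a, ha⟩)
    rw [resEquiv_residue, residue_eq_iff] at this
    exact this

/-- `y` is unramified over `K`: the inertia group is trivial. -/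
def Unram (K : Type v) [Field K] [Algebra k K] [IsFunctionField k K] [Algebra K L]
    [IsScalarTower k K L] [FiniteDimensional K L] (y : Place k L) : Prop :=
  ∀ σ : L ≃ₐ[K] L, Inert σ y → σ = 1

/-- Comparison with Mathlib's inertia group. -/
lemma unram_iff (y : Place k L) : Unram K y ↔ y.ring.inertiaSubgroup K = ⊥ := by
  have hst : ∀ σ : L ≃ₐ[K] L, σ ∈ y.ring.decompositionSubgroup K ↔ act σ y = y := by
    intro σ
    rw [ValuationSubring.decompositionSubgroup, MulAction.mem_stabilizer_iff]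
    constructor
    · intro h
      exact Place.ext h
    · intro h
      exact congrArg Place.ring h
  have hin : ∀ g : y.ring.decompositionSubgroup K, g ∈ y.ring.inertiaSubgroup K ↔
      Inert (g : L ≃ₐ[K] L) y := by
    intro g
    rw [inert_iff]
    have h : act (g : L ≃ₐ[K] L) y = y := (hst _).mp g.2
    rw [ValuationSubring.inertiaSubgroup, MonoidHom.mem_ker]
    constructor
    · intro h1
      refine ⟨h, fun z => ?_⟩
      have h2 := DFunLike.congr_fun h1 z
      obtain ⟨a, rfl⟩ := IsLocalRing.residue_surjective z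
      exact h2
    · rintro ⟨_, h1⟩
      refine RingEquiv.ext fun z => ?_
      have h2 := h1 z
      obtain ⟨a, rfl⟩ := IsLocalRing.residue_surjective z
      exact h2
  rw [Subgroup.eq_bot_iff_forall]
  constructor
  · intro h g hg
    exact Subtype.ext (h _ ((hin g).mp hg))
  · intro h σ hσ
    have h1 := h ⟨σ, (hst σ).mpr hσ.1⟩ ((hin _).mpr hσ)
    exact congrArg Subtype.val h1

/-- `σ` is a Frobenius element at `y`. -/
def IsFrob (σ : L ≃ₐ[K] L) (y : Place k L) : Prop :=
  act σ y = y ∧ ∀ a ∈ y.ring, σ a - a ^ (Nat.card k ^ (y.down K).degree) ∈ y.fil 1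

lemma isFrob_iff (σ : L ≃ₐ[K] L) (y : Place k L) :
    IsFrob σ y ↔ ∃ h : act σ y = y, ∀ z, resEquiv σ y h z = z ^ Nat.card (y.down K).ResidueField := by
  have hcard : Nat.card (y.down K).ResidueField = Nat.card k ^ (y.down K).degree :=
    Module.natCard_eq_pow_finrank
  rw [hcard]
  constructor
  · rintro ⟨h, h1⟩
    refine ⟨h, fun z => ?_⟩
    obtain ⟨a, rfl⟩ := IsLocalRing.residue_surjective z
    rw [resEquiv_residue, ← map_pow, residue_eq_iff]
    exact h1 a a.2
  · rintro ⟨h, h1⟩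
    refine ⟨h, fun a ha => ?_⟩
    have := h1 (IsLocalRing.residue _ ⟨a, ha⟩)
    rw [resEquiv_residue, ← map_pow, residue_eq_iff] at this
    exact this

variable [Finite k]

open Polynomial in
theorem exists_isFrob [IsGalois K L] (y : Place k L) : ∃ σ : L ≃ₐ[K] L, IsFrob σ y := by
  classical
  -- a generator of the unit group of the residue field
  obtain ⟨g, hg⟩ := IsCyclic.exists_monoid_generator (α := y.ResidueFieldˣ)
  obtain ⟨b, hb⟩ := IsLocalRing.residue_surjective (R := y.ring) (g : y.ResidueField)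
  let S : Finset (Place k L) := (Finset.univ : Finset (L ≃ₐ[K] L)).image fun σ => act σ y
  obtain ⟨a, ha⟩ := weak_approx S (fun z => if z = y then (b : L) else 0) 1
  have hay : a - b ∈ y.fil 1 := by
    have hm : y ∈ S := Finset.mem_image.mpr ⟨1, Finset.mem_univ _, act_one y⟩
    have := ha y hm
    simpa using this
  have hao : ∀ σ : L ≃ₐ[K] L, act σ y ≠ y → a ∈ (act σ y).fil 1 := by
    intro σ hσ
    have hm : act σ y ∈ S := Finset.mem_image_of_mem _ (Finset.mem_univ _)
    have := ha (act σ y) hm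
    simpa [hσ] using this
  have hayr : a ∈ y.ring := by
    have h1 := y.mem_ring_iff_fil.mpr (y.fil_anti (by norm_num) hay)
    have := y.ring.toSubring.add_mem h1 b.2
    rwa [sub_add_cancel] at this
  have har : ∀ σ : L ≃ₐ[K] L, a ∈ (act σ y).ring := by
    intro σ
    by_cases h : act σ y = y
    · rw [h]; exact hayr
    · exact (act σ y).mem_ring_iff_fil.mpr ((act σ y).fil_anti (by norm_num) (hao σ h))
  have hinv : ∀ σ : L ≃ₐ[K] L, (σ⁻¹ : L ≃ₐ[K] L).symm = σ := fun σ => rfl
  have hsr : ∀ σ : L ≃ₐ[K] L, σ a ∈ y.ring := by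
    intro σ
    have h1 := (mem_act_ring σ⁻¹ y a).mp (har σ⁻¹)
    rwa [hinv] at h1
  -- the characteristic polynomial
  let P : y.ring[X] := ∏ σ : L ≃ₐ[K] L, (X - C (⟨σ a, hsr σ⟩ : y.ring))
  have hPmap : P.map y.ring.subtype = MulSemiringAction.charpoly (L ≃ₐ[K] L) a := by
    rw [MulSemiringAction.charpoly_eq]
    simp only [P, Polynomial.map_prod, Polynomial.map_sub, Polynomial.map_X, Polynomial.map_C]
    rfl
  have hcoeff : ∀ n, ((P.coeff n : y.ring) : L) ∈ Set.range (algebraMap K L) := by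
    intro n
    rw [IsGalois.mem_range_algebraMap_iff_fixed]
    intro σ
    have h1 : ((P.coeff n : y.ring) : L) = (MulSemiringAction.charpoly (L ≃ₐ[K] L) a).coeff n := by
      rw [← hPmap, Polynomial.coeff_map]; rfl
    rw [h1]
    exact MulSemiringAction.smul_coeff_charpoly a n σ
  obtain ⟨φ, hφ⟩ := frob_ringHom (inclRes K y)
  have hcoeff' : ∀ n, φ (IsLocalRing.residue _ (P.coeff n)) = IsLocalRing.residue _ (P.coeff n) := by
    intro n
    obtain ⟨c, hc⟩ := hcoeff n
    have hcm : c ∈ (y.down K).ring := by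
      rw [← algebraMap_mem_ring_iff, hc]; exact (P.coeff n).2
    have h1 : P.coeff n = inclRing K y ⟨c, hcm⟩ := Subtype.ext hc.symm
    rw [h1, ← inclRes_residue, hφ, ← map_pow]
    congr 1
    have : Fintype (y.down K).ResidueField := Fintype.ofFinite _
    rw [Nat.card_eq_fintype_card]
    exact FiniteField.pow_card _
  let Pb : y.ResidueField[X] := P.map (IsLocalRing.residue y.ring)
  have hPb : Pb.map φ = Pb := by
    ext n
    rw [Polynomial.coeff_map, Polynomial.coeff_map]
    exact hcoeff' n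
  have hPbprod : ∀ z, Pb.eval z = ∏ σ : L ≃ₐ[K] L, (z - IsLocalRing.residue _ ⟨σ a, hsr σ⟩) := by
    intro z
    simp only [Pb, P, Polynomial.map_prod, Polynomial.map_sub, Polynomial.map_X,
      Polynomial.map_C, Polynomial.eval_prod, Polynomial.eval_sub, Polynomial.eval_X,
      Polynomial.eval_C]
  set θ : y.ResidueField := IsLocalRing.residue _ ⟨a, hayr⟩ with hθ
  have hθg : θ = g := by
    rw [← hb, hθ, residue_eq_iff]
    exact hay
  have hroot : Pb.eval θ = 0 := by
    rw [hPbprod]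
    exact Finset.prod_eq_zero (Finset.mem_univ (1 : L ≃ₐ[K] L)) (sub_eq_zero.mpr rfl)
  have hroot' : Pb.eval (φ θ) = 0 := by
    have h1 : (Pb.map φ).eval (φ θ) = φ (Pb.eval θ) := by
      rw [Polynomial.eval_map, Polynomial.eval₂_at_apply]
    rw [hPb, hroot, map_zero] at h1
    exact h1
  rw [hPbprod, Finset.prod_eq_zero_iff] at hroot'
  obtain ⟨σ, -, hσ⟩ := hroot'
  rw [sub_eq_zero] at hσ
  have hσy : act σ y = y := by
    by_contra hne
    have h1 : act σ⁻¹ y ≠ y := by
      intro h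
      apply hne
      conv_lhs => rw [← h]
      rw [← act_mul, mul_inv_cancel, act_one]
    have h2 := (mem_fil_act σ⁻¹ y a 1).mp (hao σ⁻¹ h1)
    rw [hinv] at h2
    have h3 : IsLocalRing.residue y.ring ⟨σ a, hsr σ⟩ = 0 := y.residue_eq_zero_iff.mpr h2
    rw [h3, hφ, hθg] at hσ
    exact (pow_ne_zero _ g.ne_zero) hσ
  refine ⟨σ, (isFrob_iff σ y).mpr ⟨hσy, fun z => ?_⟩⟩
  have hθσ : resEquiv σ y hσy θ = θ ^ Nat.card (y.down K).ResidueField := by
    rw [← hφ, hσ]; rfl
  by_cases hz : z = 0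
  · rw [hz, map_zero, zero_pow (Nat.card_pos).ne']
  · obtain ⟨n, hn⟩ := (Submonoid.mem_powers_iff _ _).mp (hg (Units.mk0 z hz))
    have hn' : z = θ ^ n := by
      rw [hθg, ← Units.val_pow_eq_pow_val, hn]; rfl
    rw [hn', map_pow, hθσ, ← pow_mul, ← pow_mul, mul_comm]

lemma IsFrob.conj {σ : L ≃ₐ[K] L} {y : Place k L} (h : IsFrob σ y) (τ : L ≃ₐ[K] L) :
    IsFrob (τ * σ * τ⁻¹) (act τ y) := by
  refine ⟨?_, fun a ha => ?_⟩
  · rw [← act_mul, inv_mul_cancel_right, act_mul, h.1]
  · rw [down_act, mem_fil_act]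
    have h1 := h.2 (τ.symm a) ((mem_act_ring τ y a).mp ha)
    rw [map_sub, map_pow]
    have h2 : τ.symm ((τ * σ * τ⁻¹) a) = σ (τ.symm a) := by
      change τ.symm (τ (σ (τ.symm a))) = _
      rw [AlgEquiv.symm_apply_apply]
    rw [h2]
    exact h1

lemma Inert.conj {σ : L ≃ₐ[K] L} {y : Place k L} (h : Inert σ y) (τ : L ≃ₐ[K] L) :
    Inert (τ * σ * τ⁻¹) (act τ y) := by
  refine ⟨?_, fun a ha => ?_⟩
  · rw [← act_mul, inv_mul_cancel_right, act_mul, h.1]
  · rw [mem_fil_act]
    have h1 := h.2 (τ.symm a) ((mem_act_ring τ y a).mp ha)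
    rw [map_sub]
    have h2 : τ.symm ((τ * σ * τ⁻¹) a) = σ (τ.symm a) := by
      change τ.symm (τ (σ (τ.symm a))) = _
      rw [AlgEquiv.symm_apply_apply]
    rw [h2]
    exact h1

lemma Unram.act {y : Place k L} (h : Unram K y) (τ : L ≃ₐ[K] L) : Unram K (act τ y) := by
  intro σ hσ
  have h1 := hσ.conj τ⁻¹
  rw [← act_mul, inv_mul_cancel, act_one, inv_inv] at h1
  have h2 := h _ h1
  have h3 : σ = τ * (τ⁻¹ * σ * τ) * τ⁻¹ := by group
  rw [h3, h2]; group

lemma resEquiv_pow_of_isFrob {σ : L ≃ₐ[K] L} {y : Place k L} (hσ : act σ y = y)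
    (h : ∀ z, resEquiv σ y hσ z = z ^ Nat.card (y.down K).ResidueField) (n : ℕ)
    (z : y.ResidueField) :
    resEquiv (σ ^ n) y (act_pow_eq hσ n) z = z ^ (Nat.card (y.down K).ResidueField ^ n) := by
  induction n generalizing z with
  | zero =>
    obtain ⟨a, rfl⟩ := IsLocalRing.residue_surjective z
    have h0 : resEquiv (σ ^ 0) y (act_pow_eq hσ 0) (IsLocalRing.residue _ a) =
        IsLocalRing.residue _ a := by
      rw [resEquiv_residue]
      congr 1
    rw [h0, pow_zero, pow_one]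
  | succ n ih =>
    have h1 : resEquiv (σ ^ (n + 1)) y (act_pow_eq hσ (n + 1)) z =
        resEquiv (σ ^ n * σ) y (act_mul_eq (act_pow_eq hσ n) hσ) z := by
      obtain ⟨a, rfl⟩ := IsLocalRing.residue_surjective z
      rw [resEquiv_residue, resEquiv_residue]
      congr 1
    rw [h1, resEquiv_mul (act_pow_eq hσ n) hσ, h, ih, ← pow_mul, pow_succ, mul_comm]

/-- Any element of the decomposition group acts on the residue field as a power of Frobenius. -/
lemma exists_pow_inert {σ τ : L ≃ₐ[K] L} {y : Place k L} (hσ : IsFrob σ y) (hτ : act τ y = y) :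
    ∃ n : ℕ, Inert (τ * (σ ^ n)⁻¹) y := by
  obtain ⟨hσy, hσz⟩ := (isFrob_iff σ y).mp hσ
  obtain ⟨n, hn⟩ := exists_eq_pow_card (inclRes K y) (resEquiv τ y hτ : y.ResidueField →+* _)
    (fun c => resEquiv_inclRes hτ c)
  refine ⟨n, ?_⟩
  rw [inert_iff]
  have hinv := act_inv_eq (act_pow_eq hσy n)
  refine ⟨act_mul_eq hτ hinv, fun z => ?_⟩
  rw [resEquiv_mul hτ hinv]
  have h1 := hn (resEquiv (σ ^ n)⁻¹ y hinv z)
  have h2 := resEquiv_pow_of_isFrob hσy hσz n (resEquiv (σ ^ n)⁻¹ y hinv z)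
  have h3 : resEquiv (σ ^ n) y (act_pow_eq hσy n) (resEquiv (σ ^ n)⁻¹ y hinv z) = z := by
    obtain ⟨a, rfl⟩ := IsLocalRing.residue_surjective z
    rw [resEquiv_residue, resEquiv_residue]
    congr 1
    apply Subtype.ext
    rw [coe_decEquiv, coe_decEquiv]
    exact AlgEquiv.apply_symm_apply _ _
  have h4 : resEquiv τ y hτ (resEquiv (σ ^ n)⁻¹ y hinv z) =
      resEquiv (σ ^ n) y (act_pow_eq hσy n) (resEquiv (σ ^ n)⁻¹ y hinv z) := by
    rw [h2]; exact h1
  rw [h4, h3]

/-- In an unramified place the decomposition group is generated by the Frobenius element. -/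
theorem mem_zpowers_of_unram [IsGalois K L] {y : Place k L} (h : Unram K y) {σ : L ≃ₐ[K] L}
    (hσ : IsFrob σ y) (τ : L ≃ₐ[K] L) (hτ : act τ y = y) : τ ∈ Subgroup.zpowers σ := by
  obtain ⟨n, hn⟩ := exists_pow_inert hσ hτ
  have h1 := h _ hn
  rw [mul_inv_eq_one] at h1
  rw [h1]
  exact ⟨n, by simp⟩

theorem degree_of_unram [IsGalois K L] {y : Place k L} (h : Unram K y) {σ : L ≃ₐ[K] L}
    (hσ : IsFrob σ y) : y.degree = orderOf σ * (y.down K).degree := by
  obtain ⟨hσy, hσz⟩ := (isFrob_iff σ y).mp hσ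
  obtain ⟨f, hf0, hcard, hf⟩ := pow_card_pow_eq_self_iff (inclRes K y)
  have hpow : ∀ m : ℕ, σ ^ m = 1 ↔ f ∣ m := by
    intro m
    rw [← hf]
    constructor
    · intro h1 z
      have h2 := resEquiv_pow_of_isFrob hσy hσz m z
      rw [← h2]
      obtain ⟨a, rfl⟩ := IsLocalRing.residue_surjective z
      rw [resEquiv_residue]
      congr 1
      apply Subtype.ext
      rw [coe_decEquiv, h1]; rfl
    · intro h1
      apply h
      rw [inert_iff]
      refine ⟨act_pow_eq hσy m, fun z => ?_⟩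
      rw [resEquiv_pow_of_isFrob hσy hσz m z, h1]
  have hord : orderOf σ = f := by
    apply Nat.dvd_antisymm
    · exact orderOf_dvd_of_pow_eq_one ((hpow f).mpr dvd_rfl)
    · exact (hpow _).mp (pow_orderOf_eq_one σ)
  rw [card_residueField, card_residueField, ← pow_mul] at hcard
  have := Nat.pow_right_injective (Finite.one_lt_card (α := k)) hcard
  rw [this, hord, mul_comm]

theorem ncard_fibre_of_unram [IsGalois K L] {y : Place k L} (h : Unram K y) {σ : L ≃ₐ[K] L}
    (hσ : IsFrob σ y) :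
    {y' : Place k L | y'.down K = y.down K}.ncard * orderOf σ = Nat.card (L ≃ₐ[K] L) := by
  let : MulAction (L ≃ₐ[K] L) (Place k L) :=
    { smul := fun σ y => Place.act σ y
      one_smul := fun y => act_one y
      mul_smul := fun σ τ y => act_mul σ τ y }
  have hsmul : ∀ (σ : L ≃ₐ[K] L) (y : Place k L), σ • y = Place.act σ y := fun _ _ => rfl
  have horb : {y' : Place k L | y'.down K = y.down K} = MulAction.orbit (L ≃ₐ[K] L) y := by
    ext y'
    rw [MulAction.mem_orbit_iff]
    constructor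
    · intro h1
      obtain ⟨τ, hτ⟩ := exists_act_eq (K := K) (y := y) (y' := y') h1.symm
      exact ⟨τ, hτ⟩
    · rintro ⟨τ, rfl⟩
      exact down_act τ y
  have hstab : MulAction.stabilizer (L ≃ₐ[K] L) y = Subgroup.zpowers σ := by
    apply le_antisymm
    · intro τ hτ
      exact mem_zpowers_of_unram h hσ τ hτ
    · rw [Subgroup.zpowers_le]
      exact hσ.1
  have h1 := Nat.card_congr (MulAction.orbitProdStabilizerEquivGroup (L ≃ₐ[K] L) y)
  rw [Nat.card_prod, hstab, Nat.card_zpowers] at h1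
  rw [horb, ← h1]
  rfl

/-- If all of `Gal(L/K)` is inert at `y` then `y` is the only place above its restriction, and
has the same degree. -/
theorem of_totally_inert [IsGalois K L] {y : Place k L} (h : ∀ σ : L ≃ₐ[K] L, Inert σ y) :
    (∀ y' : Place k L, y'.down K = y.down K → y' = y) ∧ y.degree = (y.down K).degree := by
  refine ⟨fun y' hy' => ?_, ?_⟩
  · obtain ⟨σ, hσ⟩ := exists_act_eq (K := K) hy'.symm
    rw [← hσ, (h σ).1]
  · obtain ⟨σ, hσ⟩ := exists_isFrob (K := K) y
    obtain ⟨hσy, hσz⟩ := (isFrob_iff σ y).mp hσ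
    obtain ⟨_, hin⟩ := (inert_iff σ y).mp (h σ)
    obtain ⟨f, hf0, hcard, hf⟩ := pow_card_pow_eq_self_iff (inclRes K y)
    have h1 : f ∣ 1 := by
      rw [← hf]
      intro z
      rw [pow_one, ← hσz, hin]
    have h2 : f = 1 := Nat.dvd_one.mp h1
    rw [h2, pow_one, card_residueField, card_residueField] at hcard
    exact Nat.pow_right_injective (Finite.one_lt_card (α := k)) hcard

end Place

end

end Pool.Agent.WanRH
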