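import Pool.Agent.WanRH.Gal.Frob

/-!
# Inertia and Frobenius elements in towers
-/

namespace Pool.Agent.WanRH

open scoped Pointwise

universe u v w w'

section Tower

variable {k : Type u} {K : Type v} {M : Type w'} {L : Type w} [Field k] [Finite k]
  [Field K] [Algebra k K] [IsFunctionField k K]
  [Field M] [Algebra k M] [IsFunctionField k M]
  [Field L] [Algebra k L] [IsFunctionField k L]
  [Algebra K L] [IsScalarTower k K L] [FiniteDimensional K L]
  [Algebra K M] [IsScalarTower k K M] [FiniteDimensional K M]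
  [Algebra M L] [IsScalarTower k M L] [FiniteDimensional M L]
  [IsScalarTower K M L] [IsGalois K L] [IsGalois K M]

namespace Place

set_option linter.unusedSectionVars false

omit [IsGalois K L] [IsGalois K M] in
lemma down_down (y : Place k L) : (y.down M).down K = y.down K := by
  apply Place.ext
  ext a
  show algebraMap M L (algebraMap K M a) ∈ y.ring ↔ algebraMap K L a ∈ y.ring
  rw [← IsScalarTower.algebraMap_apply]

/-- Restriction of the Galois action. -/
lemma down_act_tower (y : Place k L) (τ : L ≃ₐ[K] L) :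
    (act τ y).down M = act (AlgEquiv.restrictNormal τ M) (y.down M) := by
  apply Place.ext
  ext a
  rw [← algebraMap_mem_ring_iff, mem_act_ring, mem_act_ring, ← algebraMap_mem_ring_iff]
  have h1 : algebraMap M L ((AlgEquiv.restrictNormal τ M).symm a) = τ.symm (algebraMap M L a) := by
    apply τ.injective
    rw [AlgEquiv.apply_symm_apply, ← AlgEquiv.restrictNormal_commutes, AlgEquiv.apply_symm_apply]
  rw [h1]

/-- Inertia restricts. -/
theorem Inert.restrict {y : Place k L} {τ : L ≃ₐ[K] L} (h : Inert τ y) :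
    Inert (AlgEquiv.restrictNormal τ M) (y.down M) := by
  refine ⟨?_, fun a ha => ?_⟩
  · rw [← down_act_tower, h.1]
  · rw [← algebraMap_mem_fil_one_iff, map_sub, AlgEquiv.restrictNormal_commutes]
    exact h.2 _ ha

theorem IsFrob.restrict {y : Place k L} {τ : L ≃ₐ[K] L} (h : IsFrob τ y) :
    IsFrob (AlgEquiv.restrictNormal τ M) (y.down M) := by
  refine ⟨?_, fun a ha => ?_⟩
  · rw [← down_act_tower, h.1]
  · rw [← algebraMap_mem_fil_one_iff, map_sub, AlgEquiv.restrictNormal_commutes, map_pow,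
      down_down]
    exact h.2 _ ha

/-- Regard an `M`-automorphism as a `K`-automorphism. -/
lemma restrictScalars_act (ρ : L ≃ₐ[M] L) (y : Place k L) :
    act (AlgEquiv.restrictScalars K ρ) y = act ρ y := by
  apply Place.ext
  ext a
  rw [mem_act_ring, mem_act_ring]
  rfl

/-- Inertia lifts. -/
theorem exists_inert_lift (y : Place k L) (σ : M ≃ₐ[K] M) (hσ : Inert σ (y.down M)) :
    ∃ τ : L ≃ₐ[K] L, Inert τ y ∧ AlgEquiv.restrictNormal τ M = σ := by
  have hgal : IsGalois M L := IsGalois.tower_top_of_isGalois K M L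
  -- some lift
  obtain ⟨τ₀, hτ₀⟩ := AlgEquiv.restrictNormalHom_surjective (F := K) (K₁ := M) L σ
  have hτ₀' : AlgEquiv.restrictNormal τ₀ M = σ := hτ₀
  -- move it into the decomposition group
  have h1 : (act τ₀ y).down M = y.down M := by
    rw [down_act_tower, hτ₀', hσ.1]
  obtain ⟨ρ, hρ⟩ := exists_act_eq (K := M) h1
  have hres : ∀ (ρ : L ≃ₐ[M] L) (τ : L ≃ₐ[K] L),
      AlgEquiv.restrictNormal (AlgEquiv.restrictScalars K ρ * τ) M =
        AlgEquiv.restrictNormal τ M := by
    intro ρ τ
    ext a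
    apply (algebraMap M L).injective
    rw [AlgEquiv.restrictNormal_commutes, AlgEquiv.restrictNormal_commutes]
    change ρ (τ (algebraMap M L a)) = _
    rw [← AlgEquiv.restrictNormal_commutes τ M a, AlgEquiv.commutes]
  set τ₁ : L ≃ₐ[K] L := AlgEquiv.restrictScalars K ρ * τ₀ with hτ₁def
  have hτ₁ : act τ₁ y = y := by
    rw [hτ₁def, act_mul, restrictScalars_act]; exact hρ
  have hτ₁r : AlgEquiv.restrictNormal τ₁ M = σ := by rw [hτ₁def, hres, hτ₀']
  -- its action on the residue field is a power of the Frobenius over `M`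
  obtain ⟨φ, hφ⟩ := exists_isFrob (K := M) y
  obtain ⟨hφy, hφz⟩ := (isFrob_iff φ y).mp hφ
  obtain ⟨n, hn⟩ := exists_eq_pow_card (inclRes M y)
    (resEquiv τ₁ y hτ₁ : y.ResidueField →+* y.ResidueField) (fun c => by
      obtain ⟨a, rfl⟩ := IsLocalRing.residue_surjective c
      change resEquiv τ₁ y hτ₁ _ = _
      rw [inclRes_residue, resEquiv_residue, residue_eq_iff, coe_decEquiv, coe_inclRing]
      have h2 := hσ.2 a a.2
      rw [← algebraMap_mem_fil_one_iff, map_sub, ← hτ₁r, AlgEquiv.restrictNormal_commutes] at h2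
      exact h2)
  -- correct by a power of it
  set ψ : L ≃ₐ[M] L := (φ ^ n)⁻¹ with hψdef
  have hψ : act ψ y = y := act_inv_eq (act_pow_eq hφy n)
  refine ⟨AlgEquiv.restrictScalars K ψ * τ₁, ?_, by rw [hres, hτ₁r]⟩
  have hψ' : act (AlgEquiv.restrictScalars K ψ) y = y := by rw [restrictScalars_act]; exact hψ
  refine ⟨act_mul_eq hψ' hτ₁, fun a ha => ?_⟩
  change ψ (τ₁ a) - a ∈ y.fil 1
  have h3 := hn (IsLocalRing.residue _ ⟨a, ha⟩)
  have h4 := resEquiv_pow_of_isFrob hφy hφz n (IsLocalRing.residue _ ⟨a, ha⟩)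
  have h5 : resEquiv τ₁ y hτ₁ (IsLocalRing.residue _ ⟨a, ha⟩) =
      resEquiv (φ ^ n) y (act_pow_eq hφy n) (IsLocalRing.residue _ ⟨a, ha⟩) := by
    rw [h4]; exact h3
  rw [resEquiv_residue, resEquiv_residue, residue_eq_iff, coe_decEquiv, coe_decEquiv] at h5
  have h6 := (apply_mem_fil_iff hψ _ 1).mpr h5
  rw [map_sub] at h6
  have h7 : ψ ((φ ^ n) a) = a := by
    change (ψ * φ ^ n) a = a
    rw [hψdef, inv_mul_cancel]; rfl
  rw [h7] at h6
  exact h6

end Place

end Tower

end Pool.Agent.WanRH
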